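import Pool.Agent.W257.CStm2

open Polynomial Finset

namespace Pool.Agent.W402.ESG

theorem main : Pool.Agent.W257.S_p2 := by
  intro m g β hg
  rcases Nat.eq_zero_or_pos m with rfl | hm
  · exact ⟨0, by simp⟩
  refine ⟨-((-1) ^ m * g * g.comp (-X)).coeff ((m - 1) * 2), ?_⟩
  have h1 : ((-1) ^ m * g * g.comp (-X)).map (Int.castRingHom ℝ) =
      expand ℝ 2 (∏ i, (X - C (β i ^ 2))) := by
    rw [Polynomial.map_mul, Polynomial.map_mul, Polynomial.map_comp, hg, map_prod,
      Polynomial.prod_comp]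
    have e : ((-1 : ℤ[X]) ^ m).map (Int.castRingHom ℝ) = ∏ _i : Fin m, (-1 : ℝ[X]) := by
      simp
    rw [e, ← Finset.prod_mul_distrib, ← Finset.prod_mul_distrib]
    apply Finset.prod_congr rfl
    intro i _
    simp only [Polynomial.map_neg, Polynomial.map_X, sub_comp, X_comp, C_comp, map_sub, expand_X,
      expand_C, map_pow]
    ring
  have h2 := congrArg (fun p : ℝ[X] => p.coeff ((m - 1) * 2)) h1
  simp only [coeff_map, coeff_expand_mul two_pos] at h2
  have h3 := Polynomial.prod_X_sub_C_coeff_card_pred (Finset.univ : Finset (Fin m))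
    (fun i => β i ^ 2) (by simpa using hm)
  rw [Finset.card_univ, Fintype.card_fin] at h3
  rw [h3] at h2
  rw [Int.cast_neg]
  have h4 : (((((-1) ^ m * g * g.comp (-X)).coeff ((m - 1) * 2) : ℤ)) : ℝ) =
    -∑ i, β i ^ 2 := h2
  rw [h4, neg_neg]

end Pool.Agent.W402.ESG
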